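import Mathlib
import Pool.Agent.Helper998.VecMatroid

/-!
# MP_1f7bca_co: a binary matroid without `M(K₅)*`-restricted minor whose cycle ideal is not
generated in degree at most five

The matroid has 10 elements, rank 6 and 16 cycles; it is connected, simple and cosimple.  Since it
has as many elements as `M(K₅)*`, it could have an `M(K₅)*`-restricted minor only if it were
isomorphic to `M(K₅)*`, but it has a circuit with five elements.  A fiber of degree six of its cycle
ideal consists of two monomials without a common variable.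
-/

set_option autoImplicit false

open Set Relation MvPolynomial Pool.Agent.Helper998.VecMatroid

open scoped Matroid

namespace Pool.Agent.Results.MP_1f7bca_co.TenElements

universe u

section Definitions

variable {α β : Type}

/-- The matroid is binary: it is represented by vectors over `ℤ/2`. -/
def IsBinary (M : Matroid α) : Prop :=
  ∃ (k : ℕ) (v : α → Fin k → ZMod 2), ∀ I ⊆ M.E, M.Indep I ↔ LinearIndepOn (ZMod 2) v I

/-- The matroid is connected: any two elements lie in a circuit. -/
def IsConnected (M : Matroid α) : Prop :=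
  M.E.Nonempty ∧ ∀ e ∈ M.E, ∀ f ∈ M.E, e ≠ f → ∃ C, M.IsCircuit C ∧ e ∈ C ∧ f ∈ C

/-- The matroid is simple: every circuit has at least three elements. -/
def IsSimple (M : Matroid α) : Prop := ∀ C, M.IsCircuit C → 3 ≤ C.encard

/-- `D` is a cycle: a (possibly empty) disjoint union of circuits. -/
def IsCycle (M : Matroid α) (D : Set α) : Prop :=
  ∃ 𝒞 : Set (Set α), (∀ C ∈ 𝒞, M.IsCircuit C) ∧ 𝒞.PairwiseDisjoint id ∧ D = ⋃₀ 𝒞

/-- The operations allowed for restricted minors: deletions, series contractions and coloop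
contractions. -/
inductive RestrictedStep (M : Matroid α) : Matroid α → Prop
  | delete (e : α) (he : e ∈ M.E) : RestrictedStep M (M ＼ {e})
  | series (e f : α) (hef : e ≠ f) (h : M.IsCocircuit {e, f}) : RestrictedStep M (M ／ {e})
  | coloop (e : α) (h : M.IsColoop e) : RestrictedStep M (M ／ {e})

/-- The matroids are isomorphic. -/
def IsIso (M : Matroid α) (N : Matroid β) : Prop :=
  ∃ φ : M.E ≃ N.E, ∀ I : Set M.E,
    M.Indep (Subtype.val '' I) ↔ N.Indep (Subtype.val '' (φ '' I))

/-- `M` has an `N`-restricted minor. -/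
def HasRestrictedMinor (M : Matroid α) (N : Matroid β) : Prop :=
  ∃ M', ReflTransGen RestrictedStep M M' ∧ IsIso M' N

/-- The edges of the complete graph on five vertices. -/
abbrev K5Edge := {p : Fin 5 × Fin 5 // p.1 < p.2}

/-- The cycle matroid of the complete graph on five vertices: the binary matroid of the incidence
vectors of the edges. -/
noncomputable def MK5 : Matroid K5Edge :=
  vecMatroid (ZMod 2) fun p : K5Edge =>
    (Pi.single p.1.1 1 + Pi.single p.1.2 1 : Fin 5 → ZMod 2)

/-- The map `x_D ↦ s ∏_{e ∈ D} t_e`; the variable `s` is `X none`, and `t_e` is `X (some e)`. -/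
noncomputable def toricMap (K : Type u) [Field K] [Finite α] (M : Matroid α) :
    MvPolynomial {D : Set α // IsCycle M D} K →ₐ[K] MvPolynomial (Option α) K :=
  aeval fun D => X none * ∏ e ∈ (Set.toFinite D.1).toFinset, X (some e)

/-- The cycle ideal. -/
noncomputable def cycleIdeal (K : Type u) [Field K] [Finite α] (M : Matroid α) :
    Ideal (MvPolynomial {D : Set α // IsCycle M D} K) :=
  RingHom.ker (toricMap K M)

/-- `μ(M) ≤ d`: the cycle ideal is generated by its homogeneous elements of degree at most `d`. -/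
def MuLE (K : Type u) [Field K] [Finite α] (M : Matroid α) (d : ℕ) : Prop :=
  Ideal.span {f | f ∈ cycleIdeal K M ∧ ∃ n ≤ d, f.IsHomogeneous n} = cycleIdeal K M

end Definitions

/-! ### A criterion -/

section Toric

variable {σ τ : Type*} (K : Type u) [Field K] (w : σ → τ →₀ ℕ)

/-- The exponent of the image of a monomial. -/
noncomputable def W (a : σ →₀ ℕ) : τ →₀ ℕ := a.sum fun D n => n • w D

theorem W_add (a b : σ →₀ ℕ) : W w (a + b) = W w a + W w b := by
  unfold W
  exact Finsupp.sum_add_index' (fun _ => zero_smul _ _) (fun _ _ _ => add_smul _ _ _)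

theorem aeval_monomial' (a : σ →₀ ℕ) (r : K) :
    aeval (fun D => (monomial (w D) (1 : K))) (monomial a r) = monomial (W w a) r := by
  rw [aeval_monomial]
  have : (a.prod fun D n => (monomial (w D) (1 : K)) ^ n) = monomial (W w a) 1 := by
    unfold W
    rw [Finsupp.prod, Finsupp.sum]
    simp only [monomial_pow, one_pow]
    rw [monomial_sum_one]
  rw [this, algebraMap_eq, C_mul_monomial, mul_one]

theorem coeff_eq_zero {f : MvPolynomial σ K}
    (hf : aeval (fun D => (monomial (w D) (1 : K))) f = 0) {a : σ →₀ ℕ}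
    (ha : ∀ b, W w b = W w a → b = a) : coeff a f = 0 := by
  classical
  have h1 : coeff (W w a) (aeval (fun D => (monomial (w D) (1 : K))) f) =
      ∑ b ∈ f.support, if W w b = W w a then coeff b f else 0 := by
    conv_lhs => rw [f.as_sum]
    rw [map_sum, coeff_sum]
    apply Finset.sum_congr rfl
    intro b _
    rw [aeval_monomial', coeff_monomial]
  rw [hf, coeff_zero] at h1
  by_contra hne
  rw [Finset.sum_eq_single a] at h1
  · rw [if_pos rfl] at h1
    exact hne h1.symm
  · intro b _ hb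
    rw [if_neg fun h => hb (ha b h)]
  · intro h
    exact absurd (mem_support_iff.2 hne) h

theorem not_generated {u v : σ →₀ ℕ} {d : ℕ} (hu : u.degree = d + 1)
    (huv : W w u = W w v) (hne : u ≠ v) (hfib : ∀ b, W w b = W w u → b = u ∨ b = v)
    (hcop : ∀ m, m ≤ u → m ≤ v → m = 0) :
    Ideal.span {f | f ∈ RingHom.ker (aeval (R := K) (fun D => (monomial (w D) (1 : K)))) ∧
      ∃ n ≤ d, f.IsHomogeneous n} ≠
      RingHom.ker (aeval (R := K) (fun D => (monomial (w D) (1 : K)))) := by
  classical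
  intro h
  have hmem : monomial u 1 - monomial v 1 ∈
      RingHom.ker (aeval (R := K) (fun D => (monomial (w D) (1 : K)))) := by
    rw [RingHom.mem_ker, map_sub, aeval_monomial', aeval_monomial', huv, sub_self]
  rw [← h] at hmem
  have key : ∀ g ∈ Ideal.span {f | f ∈ RingHom.ker
      (aeval (R := K) (fun D => (monomial (w D) (1 : K)))) ∧ ∃ n ≤ d, f.IsHomogeneous n},
      ∀ a, coeff u (a * g) = 0 := by
    intro g hg
    induction hg using Submodule.span_induction with
    | mem f hf =>
      intro a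
      obtain ⟨hf, k, hk, hfk⟩ := hf
      rw [coeff_mul]
      apply Finset.sum_eq_zero
      rintro ⟨m, u'⟩ hm
      rw [Finset.HasAntidiagonal.mem_antidiagonal] at hm
      simp only at hm ⊢
      by_cases hdeg : u'.degree = k
      · rw [coeff_eq_zero K w hf, mul_zero]
        intro b hb
        have h2 : W w (m + b) = W w u := by
          rw [← hm, W_add, W_add, hb]
        rcases hfib _ h2 with h3 | h3
        · rw [← hm] at h3
          exact add_left_cancel h3
        · exfalso
          have h4 : m = 0 := hcop m (by rw [← hm]; exact le_self_add)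
            (by rw [← h3]; exact le_self_add)
          rw [h4, zero_add] at hm
          rw [hm] at hdeg
          omega
      · rw [hfk.coeff_eq_zero hdeg, mul_zero]
    | zero => intro a; rw [mul_zero, coeff_zero]
    | add x y _ _ hx hy => intro a; rw [mul_add, coeff_add, hx, hy, add_zero]
    | smul b x _ hx => intro a; rw [smul_eq_mul, ← mul_assoc]; exact hx _
  have h1 := key _ hmem 1
  rw [one_mul] at h1
  rw [coeff_sub, coeff_monomial, coeff_monomial, if_pos rfl, if_neg (Ne.symm hne), sub_zero] at h1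
  exact one_ne_zero h1

end Toric

/-! ### Cycles of vector matroids over `ℤ/2` -/

section Cycles

theorem zmod2 {a : ZMod 2} : a = 0 ∨ a = 1 := by
  revert a; decide

variable {ι V : Type} [Fintype ι] [AddCommGroup V] [Module (ZMod 2) V] (v : ι → V)

theorem isRel_add {c d : ι → ZMod 2} (hc : IsRel v c) (hd : IsRel v d) : IsRel v (c + d) := by
  unfold IsRel at *
  simp only [Pi.add_apply, add_smul, Finset.sum_add_distrib, hc, hd, add_zero]

theorem support_add_of_subset {c d : ι → ZMod 2}
    (h : Function.support d ⊆ Function.support c) :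
    Function.support (c + d) = Function.support c \ Function.support d := by
  ext i
  have h1 : d i ≠ 0 → c i ≠ 0 := fun hi => h hi
  simp only [Function.mem_support, Pi.add_apply, Set.mem_sdiff]
  revert h1
  generalize c i = a
  generalize d i = b
  revert a b; decide

theorem isCycle_of_isRel (k : ℕ) : ∀ c : ι → ZMod 2, IsRel v c →
    (Function.support c).ncard = k → IsCycle (vecMatroid (ZMod 2) v) (Function.support c) := by
  induction k using Nat.strong_induction_on with
  | _ k ih =>
    intro c hc hk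
    by_cases h0 : c = 0
    · refine ⟨∅, by simp, by simp, ?_⟩
      rw [h0]
      simp
    · have hdep : (vecMatroid (ZMod 2) v).Dep (Function.support c) :=
        (dep_iff v).2 ⟨c, h0, hc, subset_rfl⟩
      obtain ⟨C, hCc, hC⟩ := hdep.exists_isCircuit_subset
      obtain ⟨d, hd0, hd, rfl⟩ := exists_of_isCircuit v hC
      have hs := support_add_of_subset hCc
      have hlt : (Function.support (c + d)).ncard < k := by
        rw [← hk, hs]
        apply Set.ncard_lt_ncard _ (Set.toFinite _)
        refine ⟨Set.sdiff_subset, fun h => ?_⟩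
        obtain ⟨i, hi⟩ := hC.nonempty
        exact (h (hCc hi)).2 hi
      obtain ⟨𝒞, h1, h2, h3⟩ := ih _ hlt (c + d) (isRel_add v hc hd) rfl
      refine ⟨insert (Function.support d) 𝒞, ?_, ?_, ?_⟩
      · rintro C (rfl | hC')
        · exact hC
        · exact h1 C hC'
      · rw [Set.pairwiseDisjoint_insert]
        refine ⟨h2, fun C hC' _ => ?_⟩
        have h4 : C ⊆ Function.support c \ Function.support d := by
          rw [← hs, h3]
          exact Set.subset_sUnion_of_mem hC'
        exact (Set.disjoint_of_subset_left h4 Set.disjoint_sdiff_left).symm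
      · rw [Set.sUnion_insert, ← h3, hs, Set.union_sdiff_cancel hCc]

theorem isRel_of_finset (s : Finset (Set ι)) :
    (∀ C ∈ s, (vecMatroid (ZMod 2) v).IsCircuit C) → (s : Set (Set ι)).PairwiseDisjoint id →
    ∃ c : ι → ZMod 2, IsRel v c ∧ Function.support c = ⋃₀ (s : Set (Set ι)) := by
  classical
  induction s using Finset.induction_on with
  | empty =>
    intro _ _
    exact ⟨0, by simp [IsRel], by simp⟩
  | insert C s hCs ih =>
    intro h1 h2
    rw [Finset.coe_insert] at h2
    obtain ⟨c, hc, hcs⟩ := ih (fun C hC => h1 C (by simp [hC]))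
      (h2.subset (Set.subset_insert _ _))
    obtain ⟨d, -, hd, hds⟩ := exists_of_isCircuit v (h1 C (by simp))
    refine ⟨c + d, isRel_add v hc hd, ?_⟩
    have hdisj : Disjoint (Function.support c) (Function.support d) := by
      rw [hcs, hds, Set.disjoint_sUnion_left]
      intro C' hC'
      exact h2 (Set.mem_insert_of_mem _ hC') (Set.mem_insert _ _) (by
        rintro rfl
        exact hCs (by exact_mod_cast hC'))
    rw [Finset.coe_insert, Set.sUnion_insert, ← hcs, ← hds]
    ext i
    have h3 : ¬ (c i ≠ 0 ∧ d i ≠ 0) := fun h => Set.disjoint_left.1 hdisj h.1 h.2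
    simp only [Function.mem_support, Pi.add_apply, Set.mem_union]
    revert h3
    generalize c i = a
    generalize d i = b
    revert a b; decide

theorem isCycle_iff {D : Set ι} : IsCycle (vecMatroid (ZMod 2) v) D ↔
    ∃ c : ι → ZMod 2, IsRel v c ∧ Function.support c = D := by
  constructor
  · rintro ⟨𝒞, h1, h2, rfl⟩
    have hfin : 𝒞.Finite := Set.toFinite 𝒞
    obtain ⟨c, hc, hcs⟩ := isRel_of_finset v hfin.toFinset
      (fun C hC => h1 C (by simpa using hC)) (by simpa using h2)
    exact ⟨c, hc, by rw [hcs]; simp⟩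
  · rintro ⟨c, hc, rfl⟩
    exact isCycle_of_isRel v _ c hc rfl

end Cycles

/-! ### The matroid -/

/-- The columns of the parity check matrix. -/
def h : Fin 10 → Fin 6 → ZMod 2 :=
  ![![1, 1, 1, 1, 0, 0], ![1, 0, 1, 0, 1, 0], ![0, 1, 1, 0, 0, 1], ![0, 0, 0, 1, 1, 1],
    ![1, 0, 0, 0, 0, 0], ![0, 1, 0, 0, 0, 0], ![0, 0, 1, 0, 0, 0], ![0, 0, 0, 1, 0, 0],
    ![0, 0, 0, 0, 1, 0], ![0, 0, 0, 0, 0, 1]]

/-- The matroid. -/
def M : Matroid (Fin 10) := vecMatroid (ZMod 2) h

/-- The code words. -/
def cw (a b c d : ZMod 2) : Fin 10 → ZMod 2 :=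
  ![a, b, c, d, a + b, a + c, a + b + c, a + d, b + d, c + d]

theorem sum10 (x : Fin 10 → ZMod 2) (j : Fin 6) : (∑ i, x i • h i) j =
    x 0 * h 0 j + x 1 * h 1 j + x 2 * h 2 j + x 3 * h 3 j + x 4 * h 4 j + x 5 * h 5 j +
      x 6 * h 6 j + x 7 * h 7 j + x 8 * h 8 j + x 9 * h 9 j := by
  rw [Finset.sum_apply]
  simp only [Pi.smul_apply, smul_eq_mul]
  rw [Fin.sum_univ_castSucc, Fin.sum_univ_castSucc, Fin.sum_univ_eight]
  rfl

theorem isRel_cw (a b c d : ZMod 2) : IsRel h (cw a b c d) := by
  unfold IsRel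
  ext j
  rw [sum10]
  revert a b c d j
  decide +kernel

theorem eq_cw {x : Fin 10 → ZMod 2} (hx : IsRel h x) : x = cw (x 0) (x 1) (x 2) (x 3) := by
  have hj : ∀ j, x 0 * h 0 j + x 1 * h 1 j + x 2 * h 2 j + x 3 * h 3 j + x 4 * h 4 j +
      x 5 * h 5 j + x 6 * h 6 j + x 7 * h 7 j + x 8 * h 8 j + x 9 * h 9 j = 0 := by
    intro j
    rw [← sum10, hx]
    rfl
  have key : ∀ a b c d p q r s t u : ZMod 2, (∀ j, a * h 0 j + b * h 1 j + c * h 2 j +
      d * h 3 j + p * h 4 j + q * h 5 j + r * h 6 j + s * h 7 j + t * h 8 j + u * h 9 j = 0) →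
      p = a + b ∧ q = a + c ∧ r = a + b + c ∧ s = a + d ∧ t = b + d ∧ u = c + d := by
    decide +kernel
  obtain ⟨h4, h5, h6, h7, h8, h9⟩ := key _ _ _ _ _ _ _ _ _ _ hj
  ext i
  fin_cases i
  · rfl
  · rfl
  · rfl
  · rfl
  · exact h4
  · exact h5
  · exact h6
  · exact h7
  · exact h8
  · exact h9

/-- Every nonzero code word is the indicator function of a circuit. -/
theorem isCircuit_cw {a b c d : ZMod 2} (h0 : cw a b c d ≠ 0) :
    M.IsCircuit (Function.support (cw a b c d)) := by
  apply isCircuit_of_minimal h h0 (isRel_cw a b c d)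
  intro x hx0 hx hs
  have hx' := eq_cw hx
  have key : ∀ a b c d a' b' c' d' : ZMod 2, cw a' b' c' d' ≠ 0 →
      (∀ i, cw a' b' c' d' i ≠ 0 → cw a b c d i ≠ 0) →
      ∀ i, cw a b c d i ≠ 0 → cw a' b' c' d' i ≠ 0 := by
    decide +kernel
  rw [hx'] at hx0 hs ⊢
  exact fun i hi => key a b c d _ _ _ _ hx0 (fun i hi => hs hi) i hi

theorem isBinary_M : IsBinary M := ⟨6, h, fun _ _ => Iff.rfl⟩

theorem isConnected_M : IsConnected M := by
  refine ⟨⟨0, trivial⟩, fun e _ f _ hef => ?_⟩
  have key : ∀ e f : Fin 10, e ≠ f → ∃ a b c d : ZMod 2, cw a b c d e ≠ 0 ∧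
      cw a b c d f ≠ 0 := by
    decide +kernel
  obtain ⟨a, b, c, d, he, hf⟩ := key e f hef
  refine ⟨_, isCircuit_cw (a := a) (b := b) (c := c) (d := d) ?_, he, hf⟩
  intro h0
  rw [h0] at he
  exact he rfl

theorem three_le_encard {x : Fin 10 → ZMod 2}
    (hx : 3 ≤ (Finset.univ.filter fun i => x i ≠ 0).card) :
    3 ≤ (Function.support x).encard := by
  have : Function.support x = (Finset.univ.filter fun i => x i ≠ 0 : Finset (Fin 10)) := by
    ext i
    simp
  rw [this, Set.encard_coe_eq_coe_finsetCard]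
  exact_mod_cast hx

theorem isSimple_M : IsSimple M := by
  intro C hC
  obtain ⟨x, hx0, hx, rfl⟩ := exists_of_isCircuit h hC
  apply three_le_encard
  rw [eq_cw hx] at hx0 ⊢
  have key : ∀ a b c d : ZMod 2, cw a b c d ≠ 0 →
      3 ≤ (Finset.univ.filter fun i => cw a b c d i ≠ 0).card := by
    decide +kernel
  exact key _ _ _ _ hx0

theorem isSimple_dual_M : IsSimple M✶ := by
  intro C hC
  obtain ⟨f, ⟨i, hi⟩, rfl⟩ := exists_of_isCocircuit h hC
  apply three_le_encard (x := fun i => f (h i))
  have hf : ∀ i, f (h i) = h i 0 * f (Pi.single 0 1) + h i 1 * f (Pi.single 1 1) +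
      h i 2 * f (Pi.single 2 1) + h i 3 * f (Pi.single 3 1) + h i 4 * f (Pi.single 4 1) +
      h i 5 * f (Pi.single 5 1) := by
    intro i
    have h1 := LinearMap.pi_apply_eq_sum_univ f (h i)
    rw [h1, Fin.sum_univ_six]
    simp only [smul_eq_mul]
    congr <;> (ext j; fin_cases j <;> rfl)
  simp only [hf] at hi ⊢
  have key : ∀ a b c d p q : ZMod 2, (∃ i, h i 0 * a + h i 1 * b + h i 2 * c + h i 3 * d +
      h i 4 * p + h i 5 * q ≠ 0) → 3 ≤ (Finset.univ.filter fun i => h i 0 * a + h i 1 * b +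
      h i 2 * c + h i 3 * d + h i 4 * p + h i 5 * q ≠ 0).card := by
    decide +kernel
  exact key _ _ _ _ _ _ ⟨i, hi⟩

/-! ### Restricted minors -/

theorem reach {M' : Matroid (Fin 10)} (hM : ReflTransGen RestrictedStep M M') :
    M' = M ∨ M'.E ≠ univ := by
  induction hM with
  | refl => exact Or.inl rfl
  | tail _ hstep ih =>
    right
    have key : ∀ (N : Matroid (Fin 10)) (e : Fin 10), N.E \ {e} ≠ univ := by
      intro N e hN
      have : e ∈ N.E \ {e} := by rw [hN]; trivial
      exact this.2 rfl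
    cases hstep with
    | delete e he => exact key _ e
    | series e f hef h => exact key _ e
    | coloop e h => exact key _ e

theorem card_K5 : Fintype.card K5Edge = 10 := by decide +kernel

/-- Isomorphisms preserve circuits. -/
theorem IsIso.circuit {α β : Type} {M : Matroid α} {N : Matroid β} {φ : M.E ≃ N.E}
    (hφ : ∀ I : Set M.E, M.Indep (Subtype.val '' I) ↔ N.Indep (Subtype.val '' (φ '' I)))
    {C : Set M.E} (hC : M.IsCircuit (Subtype.val '' C)) :
    N.IsCircuit (Subtype.val '' (φ '' C)) := by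
  rw [Matroid.isCircuit_iff_forall_ssubset] at hC ⊢
  refine ⟨⟨fun h => hC.1.1 ((hφ C).2 h), ?_⟩, ?_⟩
  · rintro _ ⟨x, -, rfl⟩
    exact x.2
  · intro I hI
    have hIE : I ⊆ N.E := by
      refine hI.1.trans ?_
      rintro _ ⟨x, -, rfl⟩
      exact x.2
    have h1 : I = Subtype.val '' (φ '' (φ ⁻¹' (Subtype.val ⁻¹' I))) := by
      rw [Equiv.image_preimage, Subtype.image_preimage_coe, Set.inter_eq_self_of_subset_right hIE]
    rw [h1, ← hφ]
    apply hC.2
    refine ⟨Set.image_mono ?_, fun h => hI.2 ?_⟩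
    · intro x hx
      have h2 : ((φ x : N.E) : β) ∈ Subtype.val '' (φ '' C) := hI.1 hx
      obtain ⟨y, ⟨z, hz, rfl⟩, h3⟩ := h2
      have h4 := φ.injective (Subtype.ext h3)
      rwa [← h4]
    · rintro _ ⟨_, ⟨z, hz, rfl⟩, rfl⟩
      have h2 : (z : α) ∈ Subtype.val '' C := ⟨z, hz, rfl⟩
      obtain ⟨y, hy, h3⟩ := h h2
      have h4 : y = z := Subtype.ext h3
      rw [h4] at hy
      exact hy

theorem even_cocircuit {K : Set K5Edge} (hK : MK5.IsCocircuit K) : Even K.ncard := by
  obtain ⟨f, -, rfl⟩ := exists_of_isCocircuit _ hK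
  have hf : ∀ p : K5Edge, f (Pi.single p.1.1 1 + Pi.single p.1.2 1) =
      f (Pi.single p.1.1 1) + f (Pi.single p.1.2 1) := fun p => map_add _ _ _
  simp only [hf]
  generalize hg : (fun i : Fin 5 => f (Pi.single i 1)) = g
  have hg' : ∀ i, f (Pi.single i 1) = g i := fun i => congrFun hg i
  simp only [hg']
  have key : ∀ a b c d e : ZMod 2, Even (Finset.univ.filter fun p : K5Edge =>
      ![a, b, c, d, e] p.1.1 + ![a, b, c, d, e] p.1.2 ≠ 0).card := by
    decide +kernel
  have hgv : g = ![g 0, g 1, g 2, g 3, g 4] := by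
    ext i; fin_cases i <;> rfl
  have h1 := key (g 0) (g 1) (g 2) (g 3) (g 4)
  rw [← hgv] at h1
  have h2 : {p : K5Edge | g p.1.1 + g p.1.2 ≠ 0} =
      (Finset.univ.filter fun p : K5Edge => g p.1.1 + g p.1.2 ≠ 0 : Finset K5Edge) := by
    ext p
    simp
  rw [h2, Set.ncard_coe_finset]
  exact h1

theorem not_hasRestrictedMinor : ¬ HasRestrictedMinor M MK5✶ := by
  rintro ⟨M', hM', φ, hφ⟩
  rcases reach hM' with rfl | hne
  · set C : Set M.E := {x | cw 1 0 0 0 x.1 ≠ 0} with hCdef
    have hC : Subtype.val '' C = Function.support (cw 1 0 0 0) := by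
      ext i
      constructor
      · rintro ⟨x, hx, rfl⟩
        exact hx
      · intro hi
        exact ⟨⟨i, trivial⟩, hi, rfl⟩
    have h1 : M.IsCircuit (Subtype.val '' C) := by
      rw [hC]
      apply isCircuit_cw
      decide +kernel
    have h2 := IsIso.circuit hφ h1
    have h3 := even_cocircuit h2
    rw [Set.ncard_image_of_injective _ Subtype.val_injective,
      Set.ncard_image_of_injective _ φ.injective,
      ← Set.ncard_image_of_injective C Subtype.val_injective, hC] at h3
    have h4 : Function.support (cw 1 0 0 0) =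
        (Finset.univ.filter fun i => cw 1 0 0 0 i ≠ 0 : Finset (Fin 10)) := by
      ext i
      simp
    rw [h4, Set.ncard_coe_finset] at h3
    revert h3
    decide +kernel
  · apply hne
    have h1 : M'.E.ncard = 10 := by
      have h2 : Nat.card M'.E = Nat.card MK5✶.E := Nat.card_congr φ
      rw [← Nat.card_coe_set_eq, h2]
      have h3 : MK5✶.E = univ := rfl
      rw [h3, Nat.card_coe_set_eq, Set.ncard_univ, Nat.card_eq_fintype_card, card_K5]
    apply Set.eq_of_subset_of_ncard_le (Set.subset_univ _)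
    rw [h1, Set.ncard_univ]
    simp

/-! ### The fiber -/

/-- The code words, indexed by the numbers less than 16. -/
def cw16 (x : Fin 16) : Fin 10 → ZMod 2 :=
  cw ((x : ℕ) : ZMod 2) (((x : ℕ) / 2 : ℕ) : ZMod 2) (((x : ℕ) / 4 : ℕ) : ZMod 2)
    (((x : ℕ) / 8 : ℕ) : ZMod 2)

/-- The exponents of the variables in the image of the variable of a cycle. -/
def t (x : Fin 16) : Option (Fin 10) → ℕ
  | none => 1
  | some e => if cw16 x e = 0 then 0 else 1

/-- The exponents of the first monomial. -/
def cu : Fin 16 → ℕ := ![1, 1, 0, 0, 0, 0, 2, 0, 0, 0, 0, 0, 1, 0, 0, 1]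

/-- The exponents of the second monomial. -/
def cv : Fin 16 → ℕ := ![0, 0, 1, 1, 2, 0, 0, 0, 0, 0, 0, 0, 0, 1, 1, 0]

theorem sum16 (a : Fin 16 → ℕ) (o : Option (Fin 10)) : ∑ x, a x * t x o =
    a 0 * t 0 o + a 1 * t 1 o + a 2 * t 2 o + a 3 * t 3 o +
    a 4 * t 4 o + a 5 * t 5 o + a 6 * t 6 o + a 7 * t 7 o +
    a 8 * t 8 o + a 9 * t 9 o + a 10 * t 10 o + a 11 * t 11 o +
    a 12 * t 12 o + a 13 * t 13 o + a 14 * t 14 o + a 15 * t 15 o := by
  simp only [Fin.sum_univ_castSucc (n := 15), Fin.sum_univ_castSucc (n := 14),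
    Fin.sum_univ_castSucc (n := 13), Fin.sum_univ_castSucc (n := 12),
    Fin.sum_univ_castSucc (n := 11), Fin.sum_univ_castSucc (n := 10),
    Fin.sum_univ_castSucc (n := 9), Fin.sum_univ_castSucc (n := 8), Fin.sum_univ_eight]
  rfl

theorem fiber_aux {a0 a1 a2 a3 a4 a5 a6 a7 a8 a9 a10 a11 a12 a13 a14 a15 : ℕ} (h0 : a0 + a1 +
    a2 + a3 + a4 + a5 + a6 + a7 + a8 + a9 + a10 + a11 + a12 + a13 + a14 + a15 = 6) (h1 : a1 + a3
    + a5 + a7 + a9 + a11 + a13 + a15 = 2) (h2 : a2 + a3 + a6 + a7 + a10 + a11 + a14 + a15 = 3)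
    (h3 : a4 + a5 + a6 + a7 + a12 + a13 + a14 + a15 = 4) (h4 : a8 + a9 + a10 + a11 + a12 + a13 +
    a14 + a15 = 2) (h5 : a1 + a2 + a5 + a6 + a9 + a10 + a13 + a14 = 3) (h6 : a1 + a3 + a4 + a6 +
    a9 + a11 + a12 + a14 = 4) (h7 : a1 + a2 + a4 + a7 + a9 + a10 + a12 + a15 = 3) (h8 : a1 + a3 +
    a5 + a7 + a8 + a10 + a12 + a14 = 2) (h9 : a2 + a3 + a6 + a7 + a8 + a9 + a12 + a13 = 3) (h10 :
    a4 + a5 + a6 + a7 + a8 + a9 + a10 + a11 = 2) : (a0 = 1 ∧ a1 = 1 ∧ a2 = 0 ∧ a3 = 0 ∧ a4 = 0 ∧
    a5 = 0 ∧ a6 = 2 ∧ a7 = 0 ∧ a8 = 0 ∧ a9 = 0 ∧ a10 = 0 ∧ a11 = 0 ∧ a12 = 1 ∧ a13 = 0 ∧ a14 = 0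
    ∧ a15 = 1) ∨ (a0 = 0 ∧ a1 = 0 ∧ a2 = 1 ∧ a3 = 1 ∧ a4 = 2 ∧ a5 = 0 ∧ a6 = 0 ∧ a7 = 0 ∧ a8 = 0
    ∧ a9 = 0 ∧ a10 = 0 ∧ a11 = 0 ∧ a12 = 0 ∧ a13 = 1 ∧ a14 = 1 ∧ a15 = 0) := by
  have h : a0 = 1 ∨ a0 = 0 := by omega
  rcases h with h | h
  · left
    refine ⟨?_, ?_, ?_, ?_, ?_, ?_, ?_, ?_, ?_, ?_, ?_, ?_, ?_, ?_, ?_, ?_⟩ <;> omega
  · right
    refine ⟨?_, ?_, ?_, ?_, ?_, ?_, ?_, ?_, ?_, ?_, ?_, ?_, ?_, ?_, ?_, ?_⟩ <;> omega

theorem fiber {a : Fin 16 → ℕ} (ha : ∀ o, ∑ x, a x * t x o = ∑ x, cu x * t x o) :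
    a = cu ∨ a = cv := by
  have h0 := ha none
  rw [sum16, sum16] at h0
  simp only [show t 0 none = 1 from rfl, show t 1 none = 1 from rfl, show t 2 none = 1 from
    rfl, show t 3 none = 1 from rfl, show t 4 none = 1 from rfl, show t 5 none = 1 from rfl, show
    t 6 none = 1 from rfl, show t 7 none = 1 from rfl, show t 8 none = 1 from rfl, show t 9 none
    = 1 from rfl, show t 10 none = 1 from rfl, show t 11 none = 1 from rfl, show t 12 none = 1
    from rfl, show t 13 none = 1 from rfl, show t 14 none = 1 from rfl, show t 15 none = 1 from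
    rfl, show cu 0 = 1 from rfl, show cu 1 = 1 from rfl, show cu 2 = 0 from rfl, show cu 3 = 0
    from rfl, show cu 4 = 0 from rfl, show cu 5 = 0 from rfl, show cu 6 = 2 from rfl, show cu 7 =
    0 from rfl, show cu 8 = 0 from rfl, show cu 9 = 0 from rfl, show cu 10 = 0 from rfl, show cu
    11 = 0 from rfl, show cu 12 = 1 from rfl, show cu 13 = 0 from rfl, show cu 14 = 0 from rfl,
    show cu 15 = 1 from rfl, mul_zero, mul_one, zero_add, add_zero] at h0
  have h1 := ha (some 0)
  rw [sum16, sum16] at h1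
  simp only [show t 0 (some 0) = 0 from rfl, show t 1 (some 0) = 1 from rfl, show t 2 (some 0)
    = 0 from rfl, show t 3 (some 0) = 1 from rfl, show t 4 (some 0) = 0 from rfl, show t 5 (some
    0) = 1 from rfl, show t 6 (some 0) = 0 from rfl, show t 7 (some 0) = 1 from rfl, show t 8
    (some 0) = 0 from rfl, show t 9 (some 0) = 1 from rfl, show t 10 (some 0) = 0 from rfl, show
    t 11 (some 0) = 1 from rfl, show t 12 (some 0) = 0 from rfl, show t 13 (some 0) = 1 from rfl,
    show t 14 (some 0) = 0 from rfl, show t 15 (some 0) = 1 from rfl, show cu 0 = 1 from rfl,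
    show cu 1 = 1 from rfl, show cu 2 = 0 from rfl, show cu 3 = 0 from rfl, show cu 4 = 0 from
    rfl, show cu 5 = 0 from rfl, show cu 6 = 2 from rfl, show cu 7 = 0 from rfl, show cu 8 = 0
    from rfl, show cu 9 = 0 from rfl, show cu 10 = 0 from rfl, show cu 11 = 0 from rfl, show cu
    12 = 1 from rfl, show cu 13 = 0 from rfl, show cu 14 = 0 from rfl, show cu 15 = 1 from rfl,
    mul_zero, mul_one, zero_add, add_zero] at h1
  have h2 := ha (some 1)
  rw [sum16, sum16] at h2
  simp only [show t 0 (some 1) = 0 from rfl, show t 1 (some 1) = 0 from rfl, show t 2 (some 1)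
    = 1 from rfl, show t 3 (some 1) = 1 from rfl, show t 4 (some 1) = 0 from rfl, show t 5 (some
    1) = 0 from rfl, show t 6 (some 1) = 1 from rfl, show t 7 (some 1) = 1 from rfl, show t 8
    (some 1) = 0 from rfl, show t 9 (some 1) = 0 from rfl, show t 10 (some 1) = 1 from rfl, show
    t 11 (some 1) = 1 from rfl, show t 12 (some 1) = 0 from rfl, show t 13 (some 1) = 0 from rfl,
    show t 14 (some 1) = 1 from rfl, show t 15 (some 1) = 1 from rfl, show cu 0 = 1 from rfl,
    show cu 1 = 1 from rfl, show cu 2 = 0 from rfl, show cu 3 = 0 from rfl, show cu 4 = 0 from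
    rfl, show cu 5 = 0 from rfl, show cu 6 = 2 from rfl, show cu 7 = 0 from rfl, show cu 8 = 0
    from rfl, show cu 9 = 0 from rfl, show cu 10 = 0 from rfl, show cu 11 = 0 from rfl, show cu
    12 = 1 from rfl, show cu 13 = 0 from rfl, show cu 14 = 0 from rfl, show cu 15 = 1 from rfl,
    mul_zero, mul_one, zero_add, add_zero] at h2
  have h3 := ha (some 2)
  rw [sum16, sum16] at h3
  simp only [show t 0 (some 2) = 0 from rfl, show t 1 (some 2) = 0 from rfl, show t 2 (some 2)
    = 0 from rfl, show t 3 (some 2) = 0 from rfl, show t 4 (some 2) = 1 from rfl, show t 5 (some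
    2) = 1 from rfl, show t 6 (some 2) = 1 from rfl, show t 7 (some 2) = 1 from rfl, show t 8
    (some 2) = 0 from rfl, show t 9 (some 2) = 0 from rfl, show t 10 (some 2) = 0 from rfl, show
    t 11 (some 2) = 0 from rfl, show t 12 (some 2) = 1 from rfl, show t 13 (some 2) = 1 from rfl,
    show t 14 (some 2) = 1 from rfl, show t 15 (some 2) = 1 from rfl, show cu 0 = 1 from rfl,
    show cu 1 = 1 from rfl, show cu 2 = 0 from rfl, show cu 3 = 0 from rfl, show cu 4 = 0 from
    rfl, show cu 5 = 0 from rfl, show cu 6 = 2 from rfl, show cu 7 = 0 from rfl, show cu 8 = 0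
    from rfl, show cu 9 = 0 from rfl, show cu 10 = 0 from rfl, show cu 11 = 0 from rfl, show cu
    12 = 1 from rfl, show cu 13 = 0 from rfl, show cu 14 = 0 from rfl, show cu 15 = 1 from rfl,
    mul_zero, mul_one, zero_add, add_zero] at h3
  have h4 := ha (some 3)
  rw [sum16, sum16] at h4
  simp only [show t 0 (some 3) = 0 from rfl, show t 1 (some 3) = 0 from rfl, show t 2 (some 3)
    = 0 from rfl, show t 3 (some 3) = 0 from rfl, show t 4 (some 3) = 0 from rfl, show t 5 (some
    3) = 0 from rfl, show t 6 (some 3) = 0 from rfl, show t 7 (some 3) = 0 from rfl, show t 8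
    (some 3) = 1 from rfl, show t 9 (some 3) = 1 from rfl, show t 10 (some 3) = 1 from rfl, show
    t 11 (some 3) = 1 from rfl, show t 12 (some 3) = 1 from rfl, show t 13 (some 3) = 1 from rfl,
    show t 14 (some 3) = 1 from rfl, show t 15 (some 3) = 1 from rfl, show cu 0 = 1 from rfl,
    show cu 1 = 1 from rfl, show cu 2 = 0 from rfl, show cu 3 = 0 from rfl, show cu 4 = 0 from
    rfl, show cu 5 = 0 from rfl, show cu 6 = 2 from rfl, show cu 7 = 0 from rfl, show cu 8 = 0
    from rfl, show cu 9 = 0 from rfl, show cu 10 = 0 from rfl, show cu 11 = 0 from rfl, show cu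
    12 = 1 from rfl, show cu 13 = 0 from rfl, show cu 14 = 0 from rfl, show cu 15 = 1 from rfl,
    mul_zero, mul_one, zero_add, add_zero] at h4
  have h5 := ha (some 4)
  rw [sum16, sum16] at h5
  simp only [show t 0 (some 4) = 0 from rfl, show t 1 (some 4) = 1 from rfl, show t 2 (some 4)
    = 1 from rfl, show t 3 (some 4) = 0 from rfl, show t 4 (some 4) = 0 from rfl, show t 5 (some
    4) = 1 from rfl, show t 6 (some 4) = 1 from rfl, show t 7 (some 4) = 0 from rfl, show t 8
    (some 4) = 0 from rfl, show t 9 (some 4) = 1 from rfl, show t 10 (some 4) = 1 from rfl, show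
    t 11 (some 4) = 0 from rfl, show t 12 (some 4) = 0 from rfl, show t 13 (some 4) = 1 from rfl,
    show t 14 (some 4) = 1 from rfl, show t 15 (some 4) = 0 from rfl, show cu 0 = 1 from rfl,
    show cu 1 = 1 from rfl, show cu 2 = 0 from rfl, show cu 3 = 0 from rfl, show cu 4 = 0 from
    rfl, show cu 5 = 0 from rfl, show cu 6 = 2 from rfl, show cu 7 = 0 from rfl, show cu 8 = 0
    from rfl, show cu 9 = 0 from rfl, show cu 10 = 0 from rfl, show cu 11 = 0 from rfl, show cu
    12 = 1 from rfl, show cu 13 = 0 from rfl, show cu 14 = 0 from rfl, show cu 15 = 1 from rfl,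
    mul_zero, mul_one, zero_add, add_zero] at h5
  have h6 := ha (some 5)
  rw [sum16, sum16] at h6
  simp only [show t 0 (some 5) = 0 from rfl, show t 1 (some 5) = 1 from rfl, show t 2 (some 5)
    = 0 from rfl, show t 3 (some 5) = 1 from rfl, show t 4 (some 5) = 1 from rfl, show t 5 (some
    5) = 0 from rfl, show t 6 (some 5) = 1 from rfl, show t 7 (some 5) = 0 from rfl, show t 8
    (some 5) = 0 from rfl, show t 9 (some 5) = 1 from rfl, show t 10 (some 5) = 0 from rfl, show
    t 11 (some 5) = 1 from rfl, show t 12 (some 5) = 1 from rfl, show t 13 (some 5) = 0 from rfl,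
    show t 14 (some 5) = 1 from rfl, show t 15 (some 5) = 0 from rfl, show cu 0 = 1 from rfl,
    show cu 1 = 1 from rfl, show cu 2 = 0 from rfl, show cu 3 = 0 from rfl, show cu 4 = 0 from
    rfl, show cu 5 = 0 from rfl, show cu 6 = 2 from rfl, show cu 7 = 0 from rfl, show cu 8 = 0
    from rfl, show cu 9 = 0 from rfl, show cu 10 = 0 from rfl, show cu 11 = 0 from rfl, show cu
    12 = 1 from rfl, show cu 13 = 0 from rfl, show cu 14 = 0 from rfl, show cu 15 = 1 from rfl,
    mul_zero, mul_one, zero_add, add_zero] at h6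
  have h7 := ha (some 6)
  rw [sum16, sum16] at h7
  simp only [show t 0 (some 6) = 0 from rfl, show t 1 (some 6) = 1 from rfl, show t 2 (some 6)
    = 1 from rfl, show t 3 (some 6) = 0 from rfl, show t 4 (some 6) = 1 from rfl, show t 5 (some
    6) = 0 from rfl, show t 6 (some 6) = 0 from rfl, show t 7 (some 6) = 1 from rfl, show t 8
    (some 6) = 0 from rfl, show t 9 (some 6) = 1 from rfl, show t 10 (some 6) = 1 from rfl, show
    t 11 (some 6) = 0 from rfl, show t 12 (some 6) = 1 from rfl, show t 13 (some 6) = 0 from rfl,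
    show t 14 (some 6) = 0 from rfl, show t 15 (some 6) = 1 from rfl, show cu 0 = 1 from rfl,
    show cu 1 = 1 from rfl, show cu 2 = 0 from rfl, show cu 3 = 0 from rfl, show cu 4 = 0 from
    rfl, show cu 5 = 0 from rfl, show cu 6 = 2 from rfl, show cu 7 = 0 from rfl, show cu 8 = 0
    from rfl, show cu 9 = 0 from rfl, show cu 10 = 0 from rfl, show cu 11 = 0 from rfl, show cu
    12 = 1 from rfl, show cu 13 = 0 from rfl, show cu 14 = 0 from rfl, show cu 15 = 1 from rfl,
    mul_zero, mul_one, zero_add, add_zero] at h7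
  have h8 := ha (some 7)
  rw [sum16, sum16] at h8
  simp only [show t 0 (some 7) = 0 from rfl, show t 1 (some 7) = 1 from rfl, show t 2 (some 7)
    = 0 from rfl, show t 3 (some 7) = 1 from rfl, show t 4 (some 7) = 0 from rfl, show t 5 (some
    7) = 1 from rfl, show t 6 (some 7) = 0 from rfl, show t 7 (some 7) = 1 from rfl, show t 8
    (some 7) = 1 from rfl, show t 9 (some 7) = 0 from rfl, show t 10 (some 7) = 1 from rfl, show
    t 11 (some 7) = 0 from rfl, show t 12 (some 7) = 1 from rfl, show t 13 (some 7) = 0 from rfl,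
    show t 14 (some 7) = 1 from rfl, show t 15 (some 7) = 0 from rfl, show cu 0 = 1 from rfl,
    show cu 1 = 1 from rfl, show cu 2 = 0 from rfl, show cu 3 = 0 from rfl, show cu 4 = 0 from
    rfl, show cu 5 = 0 from rfl, show cu 6 = 2 from rfl, show cu 7 = 0 from rfl, show cu 8 = 0
    from rfl, show cu 9 = 0 from rfl, show cu 10 = 0 from rfl, show cu 11 = 0 from rfl, show cu
    12 = 1 from rfl, show cu 13 = 0 from rfl, show cu 14 = 0 from rfl, show cu 15 = 1 from rfl,
    mul_zero, mul_one, zero_add, add_zero] at h8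
  have h9 := ha (some 8)
  rw [sum16, sum16] at h9
  simp only [show t 0 (some 8) = 0 from rfl, show t 1 (some 8) = 0 from rfl, show t 2 (some 8)
    = 1 from rfl, show t 3 (some 8) = 1 from rfl, show t 4 (some 8) = 0 from rfl, show t 5 (some
    8) = 0 from rfl, show t 6 (some 8) = 1 from rfl, show t 7 (some 8) = 1 from rfl, show t 8
    (some 8) = 1 from rfl, show t 9 (some 8) = 1 from rfl, show t 10 (some 8) = 0 from rfl, show
    t 11 (some 8) = 0 from rfl, show t 12 (some 8) = 1 from rfl, show t 13 (some 8) = 1 from rfl,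
    show t 14 (some 8) = 0 from rfl, show t 15 (some 8) = 0 from rfl, show cu 0 = 1 from rfl,
    show cu 1 = 1 from rfl, show cu 2 = 0 from rfl, show cu 3 = 0 from rfl, show cu 4 = 0 from
    rfl, show cu 5 = 0 from rfl, show cu 6 = 2 from rfl, show cu 7 = 0 from rfl, show cu 8 = 0
    from rfl, show cu 9 = 0 from rfl, show cu 10 = 0 from rfl, show cu 11 = 0 from rfl, show cu
    12 = 1 from rfl, show cu 13 = 0 from rfl, show cu 14 = 0 from rfl, show cu 15 = 1 from rfl,
    mul_zero, mul_one, zero_add, add_zero] at h9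
  have h10 := ha (some 9)
  rw [sum16, sum16] at h10
  simp only [show t 0 (some 9) = 0 from rfl, show t 1 (some 9) = 0 from rfl, show t 2 (some 9)
    = 0 from rfl, show t 3 (some 9) = 0 from rfl, show t 4 (some 9) = 1 from rfl, show t 5 (some
    9) = 1 from rfl, show t 6 (some 9) = 1 from rfl, show t 7 (some 9) = 1 from rfl, show t 8
    (some 9) = 1 from rfl, show t 9 (some 9) = 1 from rfl, show t 10 (some 9) = 1 from rfl, show
    t 11 (some 9) = 1 from rfl, show t 12 (some 9) = 0 from rfl, show t 13 (some 9) = 0 from rfl,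
    show t 14 (some 9) = 0 from rfl, show t 15 (some 9) = 0 from rfl, show cu 0 = 1 from rfl,
    show cu 1 = 1 from rfl, show cu 2 = 0 from rfl, show cu 3 = 0 from rfl, show cu 4 = 0 from
    rfl, show cu 5 = 0 from rfl, show cu 6 = 2 from rfl, show cu 7 = 0 from rfl, show cu 8 = 0
    from rfl, show cu 9 = 0 from rfl, show cu 10 = 0 from rfl, show cu 11 = 0 from rfl, show cu
    12 = 1 from rfl, show cu 13 = 0 from rfl, show cu 14 = 0 from rfl, show cu 15 = 1 from rfl,
    mul_zero, mul_one, zero_add, add_zero] at h10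
  have key := fiber_aux h0 h1 h2 h3 h4 h5 h6 h7 h8 h9 h10
  rcases key with ⟨k0, k1, k2, k3, k4, k5, k6, k7, k8, k9, k10, k11, k12, k13, k14, k15⟩ | ⟨k0, k1, k2, k3, k4, k5, k6, k7, k8, k9, k10, k11, k12, k13, k14, k15⟩
  · left
    ext x
    fin_cases x <;> assumption
  · right
    ext x
    fin_cases x <;> assumption

/-- The cycle with the number `x`. -/
noncomputable def cyc (x : Fin 16) : {D : Set (Fin 10) // IsCycle M D} :=
  ⟨Function.support (cw16 x), (isCycle_iff h).2 ⟨cw16 x, isRel_cw _ _ _ _, rfl⟩⟩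

theorem cyc_bijective : Function.Bijective cyc := by
  constructor
  · intro x y hxy
    have h1 : Function.support (cw16 x) = Function.support (cw16 y) := congrArg Subtype.val hxy
    have h2 : ∀ i, cw16 x i ≠ 0 ↔ cw16 y i ≠ 0 := fun i => by
      rw [← Function.mem_support, h1, Function.mem_support]
    revert x y
    have key : ∀ x y, (∀ i, cw16 x i ≠ 0 ↔ cw16 y i ≠ 0) → x = y := by decide +kernel
    intro x y _ _ h2
    exact key x y h2
  · rintro ⟨D, hD⟩
    obtain ⟨c, hc, rfl⟩ := (isCycle_iff h).1 hD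
    have key : ∀ a b c d : ZMod 2, ∃ x, cw16 x = cw a b c d := by decide +kernel
    obtain ⟨x, hx⟩ := key (c 0) (c 1) (c 2) (c 3)
    refine ⟨x, Subtype.ext ?_⟩
    show Function.support (cw16 x) = Function.support c
    rw [hx, ← eq_cw hc]

/-- The numbering of the cycles. -/
noncomputable def E : Fin 16 ≃ {D : Set (Fin 10) // IsCycle M D} :=
  Equiv.ofBijective cyc cyc_bijective

/-- The exponent of the image of the variable of a cycle. -/
noncomputable def w (D : {D : Set (Fin 10) // IsCycle M D}) : Option (Fin 10) →₀ ℕ :=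
  Finsupp.single none 1 + ∑ e ∈ (Set.toFinite D.1).toFinset, Finsupp.single (some e) 1

theorem w_none (D : {D : Set (Fin 10) // IsCycle M D}) : w D none = 1 := by
  simp [w, Finsupp.finsetSum_apply]

open Classical in
theorem w_some (D : {D : Set (Fin 10) // IsCycle M D}) (e : Fin 10) :
    w D (some e) = if e ∈ D.1 then 1 else 0 := by
  simp [w, Finsupp.single_apply]
  rfl

theorem w_E (x : Fin 16) (o : Option (Fin 10)) : w (E x) o = t x o := by
  classical
  cases o with
  | none => exact w_none _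
  | some e =>
    rw [w_some, t]
    have : e ∈ (E x).1 ↔ cw16 x e ≠ 0 := Iff.rfl
    by_cases h0 : cw16 x e = 0
    · rw [if_neg (by rw [this]; exact fun h => h h0), if_pos h0]
    · rw [if_pos (this.2 h0), if_neg h0]

theorem toricMap_eq (K : Type u) [Field K] :
    toricMap K M = aeval (fun D => (monomial (w D) (1 : K))) := by
  unfold toricMap
  congr 1
  ext1 D
  have h1 : (monomial (w D) (1 : K)) = monomial (Finsupp.single none 1) 1 *
      monomial (∑ e ∈ (Set.toFinite D.1).toFinset, Finsupp.single (some e) 1) 1 := by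
    rw [monomial_mul, one_mul]
    rfl
  rw [h1, monomial_sum_one]
  rfl

theorem W_apply (b : {D : Set (Fin 10) // IsCycle M D} →₀ ℕ) (o : Option (Fin 10)) :
    W w b o = ∑ x, b (E x) * t x o := by
  unfold W
  have hfin : Fintype {D : Set (Fin 10) // IsCycle M D} := Fintype.ofEquiv _ E
  rw [Finsupp.sum_fintype _ _ (by simp), Finsupp.finsetSum_apply, ← E.sum_comp]
  apply Finset.sum_congr rfl
  intro x _
  rw [Finsupp.smul_apply, w_E, smul_eq_mul]

/-- The exponent with given values. -/
noncomputable def expo (a : Fin 16 → ℕ) : {D : Set (Fin 10) // IsCycle M D} →₀ ℕ :=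
  haveI : Finite {D : Set (Fin 10) // IsCycle M D} := Finite.of_equiv _ E
  Finsupp.equivFunOnFinite.symm fun D => a (E.symm D)

theorem expo_apply (a : Fin 16 → ℕ) (x : Fin 16) : expo a (E x) = a x := by
  simp [expo]

theorem eq_expo {b : {D : Set (Fin 10) // IsCycle M D} →₀ ℕ} {a : Fin 16 → ℕ}
    (hb : (fun x => b (E x)) = a) : b = expo a := by
  ext D
  obtain ⟨x, rfl⟩ := E.surjective D
  rw [expo_apply, ← hb]

/-- **Theorem.** There is a connected binary matroid, simple and cosimple, which has no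
`M(K₅)*`-restricted minor, and whose cycle ideal is not generated in degree at most five over any
field. -/
theorem result : ∃ M : Matroid (Fin 10), M.E = univ ∧ IsBinary M ∧ IsConnected M ∧ IsSimple M ∧
    IsSimple M✶ ∧ ¬ HasRestrictedMinor M MK5✶ ∧ ∀ (K : Type u) [Field K], ¬ MuLE K M 5 := by
  refine ⟨M, rfl, isBinary_M, isConnected_M, isSimple_M, isSimple_dual_M,
    not_hasRestrictedMinor, ?_⟩
  intro K _ hmu
  unfold MuLE cycleIdeal at hmu
  rw [toricMap_eq] at hmu
  refine not_generated K w (u := expo cu) (v := expo cv) (d := 5) ?_ ?_ ?_ ?_ ?_ hmu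
  · have hfin : Fintype {D : Set (Fin 10) // IsCycle M D} := Fintype.ofEquiv _ E
    rw [Finsupp.degree_eq_sum, ← E.sum_comp]
    simp only [expo_apply]
    decide +kernel
  · ext o
    rw [W_apply, W_apply]
    simp only [expo_apply]
    revert o
    decide +kernel
  · intro h1
    have h2 := congrArg (fun b => b (E 0)) h1
    simp only [expo_apply] at h2
    revert h2
    decide +kernel
  · intro b hb
    have h1 := fiber (a := fun x => b (E x)) (fun o => by
      have h2 := congrArg (fun z => z o) hb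
      simp only [W_apply, expo_apply] at h2
      exact h2)
    exact h1.imp eq_expo eq_expo
  · intro m h1 h2
    ext D
    obtain ⟨x, rfl⟩ := E.surjective D
    have h3 := h1 (E x)
    have h4 := h2 (E x)
    rw [expo_apply] at h3 h4
    have key : ∀ x, min (cu x) (cv x) = 0 := by decide +kernel
    have h5 := key x
    show m (E x) = 0
    omega

end Pool.Agent.Results.MP_1f7bca_co.TenElements
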